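import Mathlib
import Pool.Agent.N299.DT.Stm

/-!
Project DT (MP_fb67b4_an, helper299), part F4: lifting Rørdam–Winter elements from the
ultrapower.
-/

set_option autoImplicit false

open scoped BoundedContinuousFunction Topology
open Filter

noncomputable section

namespace Pool.Agent.N682.DT

open Pool.Agent.N299 Pool.Agent.N299.DT

variable {A Q : Type} [CStarAlgebra A] [CStarAlgebra Q] {ω : Ultrafilter ℕ}
  {q : (ℕ →ᵇ A) →⋆ₐ[ℂ] Q}

/-- contractive lifts -/
lemma lift_contractive_aux {L P : Type} [CStarAlgebra L] [CStarAlgebra P] (p : L →⋆ₐ[ℂ] P)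
    (x0 : L) (c : P) (hx0 : p x0 = c) (hc : ‖c‖ ≤ 1) :
    ∃ x : L, p x = c ∧ ‖x‖ ≤ 1 := by
  cases subsingleton_or_nontrivial P with
  | inl hP => exact ⟨0, Subsingleton.elim _ _, by simp⟩
  | inr hP =>
  let g : ℝ → ℝ := fun t => 1 / max 1 (Real.sqrt (max t 0))
  have hg : Continuous g := by
    refine Continuous.div continuous_const (by fun_prop) fun t => ?_
    exact (lt_of_lt_of_le one_pos (le_max_left _ _)).ne'
  let _ : PartialOrder L := CStarAlgebra.spectralOrder _
  let _ : StarOrderedRing L := CStarAlgebra.spectralOrderedRing _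
  let _ : PartialOrder P := CStarAlgebra.spectralOrder _
  let _ : StarOrderedRing P := CStarAlgebra.spectralOrderedRing _
  have hsa : IsSelfAdjoint (star x0 * x0) := IsSelfAdjoint.star_mul_self x0
  refine ⟨x0 * cfc g (star x0 * x0), ?_, ?_⟩
  · rw [map_mul, map_cfc' p g hg _ hsa, map_mul, map_star, hx0]
    have h1 : cfc g (star c * c) = 1 := by
      rw [← cfc_one ℝ (star c * c)]
      refine cfc_congr fun t ht => ?_
      have h2 : ‖t‖ ≤ ‖star c * c‖ := spectrum.norm_le_norm_of_mem ht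
      rw [CStarRing.norm_star_mul_self] at h2
      have h3 : t ≤ 1 := by
        have := le_abs_self t
        rw [Real.norm_eq_abs] at h2
        nlinarith [norm_nonneg c]
      have h4 : Real.sqrt (max t 0) ≤ 1 := by
        rw [Real.sqrt_le_one]
        exact max_le h3 zero_le_one
      show 1 / max 1 (Real.sqrt (max t 0)) = (1 : ℝ)
      rw [max_eq_left h4, div_one]
    rw [h1, mul_one]
  · have h1 : ‖x0 * cfc g (star x0 * x0)‖ * ‖x0 * cfc g (star x0 * x0)‖ ≤ 1 := by
      rw [← CStarRing.norm_star_mul_self, star_mul, cfc_sa]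
      have h2 : cfc g (star x0 * x0) * star x0 * (x0 * cfc g (star x0 * x0))
          = cfc (fun t => g t * t * g t) (star x0 * x0) := by
        rw [cfc_mul (R := ℝ) (fun t => g t * t) g (star x0 * x0) (by fun_prop) (by fun_prop),
          cfc_mul (R := ℝ) g (fun t => t) (star x0 * x0) (by fun_prop) (by fun_prop),
          cfc_id' ℝ (star x0 * x0)]
        simp only [mul_assoc]
      rw [h2]
      refine norm_cfc_le zero_le_one fun t ht => ?_
      have h5 : 0 ≤ t := spectrum_nonneg_of_nonneg (star_mul_self_nonneg x0) ht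
      have h6 : 0 < max 1 (Real.sqrt (max t 0)) := lt_of_lt_of_le one_pos (le_max_left _ _)
      have h7 : Real.sqrt (max t 0) ≤ max 1 (Real.sqrt (max t 0)) := le_max_right _ _
      have h8 : Real.sqrt (max t 0) * Real.sqrt (max t 0) = t := by
        rw [max_eq_left h5, Real.mul_self_sqrt h5]
      have h9 : t ≤ max 1 (Real.sqrt (max t 0)) * max 1 (Real.sqrt (max t 0)) := by
        calc t = Real.sqrt (max t 0) * Real.sqrt (max t 0) := h8.symm
          _ ≤ _ := mul_self_le_mul_self (Real.sqrt_nonneg _) h7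
      have h10 : g t * t * g t = t / (max 1 (Real.sqrt (max t 0)) *
          max 1 (Real.sqrt (max t 0))) := by
        simp only [g]
        field_simp
      rw [h10, Real.norm_eq_abs, abs_of_nonneg (div_nonneg h5 (mul_pos h6 h6).le)]
      exact div_le_one_of_le₀ h9 (mul_pos h6 h6).le
    nlinarith [norm_nonneg (x0 * cfc g (star x0 * x0))]

lemma lift_contractive (h : IsUP A Q ω q) (c : Q) (hc : ‖c‖ ≤ 1) :
    ∃ x : ℕ →ᵇ A, q x = c ∧ ‖x‖ ≤ 1 := by
  obtain ⟨x0, hx0⟩ := h.surj c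
  exact lift_contractive_aux q x0 c hx0 hc

/-- norm estimates pass to almost all coordinates -/
lemma eventually_le (h : IsUP A Q ω q) (x : ℕ →ᵇ A) {ε : ℝ} (hε : 0 < ε)
    (hx : ‖q x‖ ≤ ε / 2) : ∀ᶠ k in (ω : Filter ℕ), ‖x k‖ ≤ ε := by
  have he : (0 : ℝ) < ε / 2 := by linarith
  have hne : ((ε / 2 : ℝ) : ℂ) ≠ 0 := by
    rw [Complex.ofReal_ne_zero]
    exact he.ne'
  obtain ⟨y, hy, hy1⟩ := lift_contractive h ((((ε / 2 : ℝ) : ℂ)⁻¹) • q x) (by
    rw [norm_smul, norm_inv, Complex.norm_real, Real.norm_eq_abs, abs_of_pos he]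
    rw [inv_mul_le_iff₀ he, mul_one]
    exact hx)
  have h0 : q (x - ((ε / 2 : ℝ) : ℂ) • y) = 0 := by
    rw [map_sub, map_smul, hy, smul_smul, mul_inv_cancel₀ hne, one_smul, sub_self]
  have h1 := (h.ker _).1 h0
  have h2 : ∀ᶠ k in (ω : Filter ℕ), ‖(x - ((ε / 2 : ℝ) : ℂ) • y) k‖ < ε / 2 :=
    h1.eventually_lt_const he
  filter_upwards [h2] with k hk
  have h3 : x k = (x - ((ε / 2 : ℝ) : ℂ) • y) k + ((ε / 2 : ℝ) : ℂ) • y k := by
    rw [BoundedContinuousFunction.sub_apply, BoundedContinuousFunction.smul_apply]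
    abel
  rw [h3]
  refine (norm_add_le _ _).trans ?_
  have h4 : ‖((ε / 2 : ℝ) : ℂ) • y k‖ ≤ ε / 2 := by
    rw [norm_smul, Complex.norm_real, Real.norm_eq_abs, abs_of_pos he]
    have h5 : ‖y k‖ ≤ 1 := (y.norm_coe_le_norm k).trans hy1
    nlinarith
  linarith

lemma cen_comm {c : Q} (hc : c ∈ Cen q) (a : A) : c * q (cst a) = q (cst a) * c := by
  have h := (StarSubalgebra.mem_centralizer_iff ℂ).1 hc (q (cst a)) ⟨a, rfl⟩
  exact h.1.symm

theorem t_F4 : S_F4 := by
  intro A Q _ _ ω q hup _ hRW n F ε hε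
  obtain ⟨c, s, hrw, hcc, hsc⟩ := hRW n (ε / 2) (by linarith)
  obtain ⟨d, hd⟩ := hrw.pos
  have hd1 : ‖d‖ ≤ 1 := by
    have h1 := hrw.nc 0
    rw [hd, CStarRing.norm_star_mul_self] at h1
    nlinarith [norm_nonneg d]
  obtain ⟨d', hd', hd'1⟩ := lift_contractive hup d hd1
  obtain ⟨s', hs', hs'1⟩ := lift_contractive hup s hrw.ns
  have hl : ∀ i, ∃ x : ℕ →ᵇ A, q x = c i ∧ ‖x‖ ≤ 1 := fun i =>
    lift_contractive hup (c i) (hrw.nc i)
  choose e he he1 using hl
  let c' : Fin (n + 1) → (ℕ →ᵇ A) := fun i => if i = 0 then star d' * d' else e i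
  have hc'0 : c' 0 = star d' * d' := by simp [c']
  have hq : ∀ i, q (c' i) = c i := by
    intro i
    by_cases hi : i = 0
    · subst hi
      rw [hc'0, map_mul, map_star, hd', hd]
    · simp only [c', if_neg hi, he]
  have hn : ∀ i, ‖c' i‖ ≤ 1 := by
    intro i
    by_cases hi : i = 0
    · subst hi
      rw [hc'0, CStarRing.norm_star_mul_self]
      nlinarith [norm_nonneg d']
    · simp only [c', if_neg hi, he1]
  have hz : (0 : ℝ) ≤ ε / 2 := by linarith
  have E1 : ∀ i, ∀ᶠ k in (ω : Filter ℕ), ‖c' i k * star (c' i k) - c' 0 k * c' 0 k‖ ≤ ε := by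
    intro i
    refine eventually_le hup (c' i * star (c' i) - c' 0 * c' 0) hε ?_
    rw [map_sub, map_mul, map_mul, map_star, hq, hq, hrw.diag, sub_self, norm_zero]
    exact hz
  have E2 : ∀ i j, i ≠ j → ∀ᶠ k in (ω : Filter ℕ), ‖c' i k * star (c' j k)‖ ≤ ε := by
    intro i j hij
    refine eventually_le hup (c' i * star (c' j)) hε ?_
    rw [map_mul, map_star, hq, hq, hrw.orth i j hij, norm_zero]
    exact hz
  have E3 : ∀ᶠ k in (ω : Filter ℕ),
      ‖star (s' k) * s' k + ∑ i, star (c' i k) * c' i k - 1‖ ≤ ε := by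
    have h1 := eventually_le hup (star s' * s' + ∑ i, star (c' i) * c' i - 1) hε (by
      rw [map_sub, map_add, map_mul, map_star, map_sum, map_one, hs']
      simp only [map_mul, map_star, hq]
      exact hrw.one)
    filter_upwards [h1] with k hk
    have h2 : (star s' * s' + ∑ i, star (c' i) * c' i - 1 : ℕ →ᵇ A) k
        = star (s' k) * s' k + ∑ i, star (c' i k) * c' i k - 1 := by
      rw [BoundedContinuousFunction.sub_apply, BoundedContinuousFunction.add_apply,
        BoundedContinuousFunction.sum_apply]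
      rfl
    rw [← h2]
    exact hk
  have E4 : ∀ᶠ k in (ω : Filter ℕ), ‖c' 0 k * s' k - s' k‖ ≤ ε := by
    refine eventually_le hup (c' 0 * s' - s') hε ?_
    rw [map_sub, map_mul, hq, hs', hrw.fix, sub_self, norm_zero]
    exact hz
  have E5 : ∀ i, ∀ a ∈ F, ∀ᶠ k in (ω : Filter ℕ), ‖c' i k * a - a * c' i k‖ ≤ ε := by
    intro i a _
    refine eventually_le hup (c' i * cst a - cst a * c' i) hε ?_
    rw [map_sub, map_mul, map_mul, hq, cen_comm (hcc i), sub_self, norm_zero]
    exact hz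
  have E6 : ∀ a ∈ F, ∀ᶠ k in (ω : Filter ℕ), ‖s' k * a - a * s' k‖ ≤ ε := by
    intro a _
    refine eventually_le hup (s' * cst a - cst a * s') hε ?_
    rw [map_sub, map_mul, map_mul, hs', cen_comm hsc, sub_self, norm_zero]
    exact hz
  have E1' : ∀ᶠ k in (ω : Filter ℕ), ∀ i, ‖c' i k * star (c' i k) - c' 0 k * c' 0 k‖ ≤ ε :=
    eventually_all.2 E1
  have E2' : ∀ᶠ k in (ω : Filter ℕ), ∀ i j, i ≠ j → ‖c' i k * star (c' j k)‖ ≤ ε := by
    refine eventually_all.2 fun i => eventually_all.2 fun j => ?_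
    by_cases hij : i = j
    · exact Eventually.of_forall fun k h => absurd hij h
    · filter_upwards [E2 i j hij] with k hk _ using hk
  have E5' : ∀ᶠ k in (ω : Filter ℕ), ∀ i, ∀ a ∈ F, ‖c' i k * a - a * c' i k‖ ≤ ε :=
    eventually_all.2 fun i => (eventually_all_finset F).2 (E5 i)
  have E6' : ∀ᶠ k in (ω : Filter ℕ), ∀ a ∈ F, ‖s' k * a - a * s' k‖ ≤ ε :=
    (eventually_all_finset F).2 E6
  obtain ⟨k, k1, k2, k3, k4, k5, k6⟩ :=
    (E1'.and (E2'.and (E3.and (E4.and (E5'.and E6'))))).exists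
  refine ⟨fun i => c' i k, s' k, fun i => ((c' i).norm_coe_le_norm k).trans (hn i),
    (s'.norm_coe_le_norm k).trans hs'1, ⟨d' k, ?_⟩, k1, k2, k3, k4, k5, k6⟩
  show c' 0 k = _
  rw [hc'0]
  rfl

end Pool.Agent.N682.DT
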